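import Pool.Agent.Lib.H59G.Comb

/-! Chunk MASS: the three sums over assignments.

`sum_prod_le`: for `g ≥ 0`, `g ∅ = 1`: `∑_κ ∏_j g (fib κ j) ≤ (1 + ∑_{A ≠ ∅} g A)^(card J)`.
Proof: the map `κ ↦ (j ↦ fib κ j)` is injective from `asg J P` into `Fintype.piFinset (fun _ => P.powerset)`
and the sum of `∏_j g (A j)` over the latter is `∏_j ∑_{A ⊆ P} g A` (`Finset.prod_univ_sum`).

`chernoff_step` and `chernoff`: `h ≥ 1`, `h ∅ = 1`.  For `s ⊆ J` put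
`Z_s = ∑_κ ∏_j g (fib κ j) * ∏_{j ∈ s} h (fib κ j)`.  Then `Z_(insert j s) - Z_s =
∑_κ ∏ g ∏_{s} h (h (fib κ j) - 1) = (sum_asg_split) ∑_{κ off j} ∏_{i ≠ j} g ∏_{s} h
∑_{B disjoint} g B (h B - 1) ≤ θ ∑_{κ off j} ... ≤ θ Z_s`, since the `κ` with `fib κ j = ∅` are some of the terms
of `Z_s`.  Induction on `s`.

`tail_le`: on `Wa κ > V`: `1 ≤ (Wa κ / V)^α`, `Wa κ ^ α = ∏_j W (fib κ j) ^ α`, `chernoff` with `h A = W A ^ α`. -/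

set_option autoImplicit false

namespace H59G

open Finset

variable {J : Type} [Fintype J] [DecidableEq J]

theorem sum_prod_le (P : Finset ℕ) (g : Finset ℕ → ℝ) (g0 : ∀ A, 0 ≤ g A) (g1 : g ∅ = 1) :
    ∑ κ ∈ asg J P, ∏ j, g (fib κ j) ≤
      (1 + ∑ A ∈ P.powerset.erase ∅, g A) ^ Fintype.card J := by
  sorry

theorem chernoff (P : Finset ℕ) (g h : Finset ℕ → ℝ) (g0 : ∀ A, 0 ≤ g A) (h1 : h ∅ = 1)
    (h0 : ∀ A ⊆ P, 1 ≤ h A) (θ : ℝ) (hθ : ∑ A ∈ P.powerset.erase ∅, g A * (h A - 1) ≤ θ)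
    (ge : g ∅ = 1) :
    ∑ κ ∈ asg J P, ∏ j, (g (fib κ j) * h (fib κ j)) ≤
      (1 + θ) ^ Fintype.card J * ∑ κ ∈ asg J P, ∏ j, g (fib κ j) := by
  sorry

theorem Wa_eq_prod_fib (κ : Finset (ℕ × J)) : Wa κ = ∏ j, W (fib κ j) := by
  sorry

theorem tail_le (P : Finset ℕ) (hP : ∀ p ∈ P, 1 ≤ p) (b : Finset ℕ → ℝ) (α θ V : ℝ) (hα : 0 ≤ α)
    (hV : 0 < V)
    (hθ : ∑ A ∈ P.powerset.erase ∅, b A ^ 2 * W A * (W A ^ α - 1) ≤ θ) :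
    ∑ κ ∈ (asg J P).filter (fun κ => V < Wa κ), ∏ j, gsq b (fib κ j) ≤
      (1 + θ) ^ Fintype.card J * V ^ (-α) * Z J P b := by
  sorry

theorem one_le_Z (P : Finset ℕ) (b : Finset ℕ → ℝ) : 1 ≤ Z J P b := by
  sorry

end H59G
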