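import Pool.Agent.Lib.H59G.Comb
import Pool.Agent.Lib.H59G.Mass

/-! Chunk ABS: absolute sums of the coefficients.

`abs_cL`: `|cL| ≤ ∏_j gpos b (fib κ j)`, `Wa κ ≤ Y` where `cL ≠ 0`, `sum_prod_le` with `g = gpos b`
(`1 + ∑ b = 2`).
`abs_cM`: `sum_asg_split`: `|cM (κ ∪ put B j)| = |cr κ| a B / asum κ ≤ 2 |cL κ| a B` (`0 ≤ bsum ≤ 1`), zero
unless `Wa κ ≤ Y`, `W B ≤ D`. -/

set_option autoImplicit false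

namespace H59G

open Finset

variable {J : Type} [Fintype J] [DecidableEq J]

theorem abs_cL (P : Finset ℕ) (hP : ∀ p ∈ P, 1 ≤ p) (b : Finset ℕ → ℝ) (hb0 : ∀ A, 0 ≤ b A)
    (hb1 : ∑ A ∈ P.powerset.erase ∅, b A = 1) (Y : ℝ) (hY : 0 ≤ Y) :
    ∑ κ ∈ asg J P, |cL b Y κ| * Wa κ ^ 2 ≤ Y ^ 2 * 2 ^ Fintype.card J := by
  sorry

theorem bsum_mem (P : Finset ℕ) (b : Finset ℕ → ℝ) (hb0 : ∀ A, 0 ≤ b A)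
    (hb1 : ∑ A ∈ P.powerset.erase ∅, b A = 1) (Y : ℝ) (κ : Finset (ℕ × J)) :
    0 ≤ bsum P b Y κ ∧ bsum P b Y κ ≤ 1 := by
  sorry

theorem abs_cM (P : Finset ℕ) (hP : ∀ p ∈ P, 1 ≤ p) (b a : Finset ℕ → ℝ) (hb0 : ∀ A, 0 ≤ b A)
    (hb1 : ∑ A ∈ P.powerset.erase ∅, b A = 1) (ha0 : ∀ A, 0 ≤ a A)
    (ha1 : ∑ A ∈ P.powerset, a A = 1) (Y D : ℝ) (hY : 0 ≤ Y) (hD : 0 ≤ D)
    (haD : ∀ A ⊆ P, a A ≠ 0 → W A ≤ D)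
    (has : ∀ κ ∈ asg J P, Wa κ ≤ Y → 1 / 2 ≤ asum P a κ) (j : J) :
    ∑ κ ∈ asg J P, |cM P b a Y j κ| * Wa κ ^ 2 ≤ (Y * D) ^ 2 * (2 * 2 ^ Fintype.card J) := by
  sorry

end H59G
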