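import Pool.Agent.Lib.H59G.Defs

/-! Chunk AVG: averages over full periods.
`avg_coprime`: Chinese remainder theorem (write the sum over `range (m n)` as a sum over `ZMod m × ZMod n`, or
`t = a + m b` and `b ↦ a + m b` is a bijection mod `n`).
`sum_Ico`: `N = q D + s`, `s < D`; both `∑` and `N avg` are `q D avg` up to `D B`. -/

set_option autoImplicit false

namespace H59G

open Finset

variable {J : Type} [Fintype J] [DecidableEq J]

theorem avg_add (n : ℕ) (f g : ℤ → ℝ) : avg n (fun t => f t + g t) = avg n f + avg n g := by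
  sorry

theorem avg_sum {ι : Type} (s : Finset ι) (n : ℕ) (f : ι → ℤ → ℝ) :
    avg n (fun t => ∑ i ∈ s, f i t) = ∑ i ∈ s, avg n (f i) := by
  sorry

theorem avg_mul_left (n : ℕ) (c : ℝ) (f : ℤ → ℝ) : avg n (fun t => c * f t) = c * avg n f := by
  sorry

theorem avg_nonneg (n : ℕ) (f : ℤ → ℝ) (h : ∀ t, 0 ≤ f t) : 0 ≤ avg n f := by
  sorry

theorem avg_mono (n : ℕ) (f g : ℤ → ℝ) (h : ∀ t, f t ≤ g t) : avg n f ≤ avg n g := by
  sorry

theorem avg_coprime {m n : ℕ} (hm : 0 < m) (hn : 0 < n) (h : Nat.Coprime m n) (f g : ℤ → ℝ)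
    (hf : ∀ t, f (t + m) = f t) (hg : ∀ t, g (t + n) = g t) :
    avg (m * n) (fun t => f t * g t) = avg m f * avg n g := by
  sorry

theorem avg_dvd {m n : ℕ} (hm : 0 < m) (hn : 0 < n) (h : m ∣ n) (f : ℤ → ℝ)
    (hf : ∀ t, f (t + m) = f t) : avg n f = avg m f := by
  sorry

/-- comparison of an interval with a full period -/
theorem sum_Ico {D : ℕ} (hD : 0 < D) (f : ℤ → ℝ) (hf : ∀ t, f (t + D) = f t) (B : ℝ)
    (hB : ∀ t, |f t| ≤ B) (t0 : ℤ) (N : ℕ) :
    |∑ t ∈ Finset.Ico t0 (t0 + N), f t - N * avg D f| ≤ 2 * D * B := by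
  sorry

end H59G
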