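import Pool.Agent.Lib.H59G.Defs

/-! Chunk COMB: combinatorics of assignments.  Elementary finset lemmas.
`sum_asg_insert`: an assignment of `insert p P` either does not use `p`, or gives it to one `j`.
`sum_asg_split`: `κ ↦ (off κ j, fib κ j)` is a bijection onto pairs. -/

set_option autoImplicit false

namespace H59G

open Finset

variable {J : Type} [Fintype J] [DecidableEq J]

theorem mem_asg {P : Finset ℕ} {κ : Finset (ℕ × J)} :
    κ ∈ asg J P ↔ (∀ x ∈ κ, x.1 ∈ P) ∧ ∀ x ∈ κ, ∀ y ∈ κ, x.1 = y.1 → x = y := by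
  sorry

theorem asg_empty : asg J ∅ = {∅} := by
  sorry

theorem sum_asg_insert {P : Finset ℕ} {p : ℕ} (hp : p ∉ P) (g : Finset (ℕ × J) → ℝ) :
    ∑ κ ∈ asg J (insert p P), g κ = ∑ κ ∈ asg J P, (g κ + ∑ j, g (insert (p, j) κ)) := by
  sorry

theorem dom_subset {P : Finset ℕ} {κ : Finset (ℕ × J)} (h : κ ∈ asg J P) : dom κ ⊆ P := by
  sorry

theorem Wa_eq {P : Finset ℕ} {κ : Finset (ℕ × J)} (h : κ ∈ asg J P) : Wa κ = W (dom κ) := by
  sorry

theorem off_eq_self {κ : Finset (ℕ × J)} {j : J} (h : fib κ j = ∅) : off κ j = κ := by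
  sorry

theorem union_put_mem {P : Finset ℕ} {κ : Finset (ℕ × J)} {j : J} {B : Finset ℕ}
    (h : κ ∈ asg J P) (hj : fib κ j = ∅) (hB : B ⊆ P \ dom κ) : κ ∪ put B j ∈ asg J P := by
  sorry

theorem fib_union_put_self {P : Finset ℕ} {κ : Finset (ℕ × J)} {j : J} {B : Finset ℕ}
    (h : κ ∈ asg J P) (hj : fib κ j = ∅) (hB : B ⊆ P \ dom κ) : fib (κ ∪ put B j) j = B := by
  sorry

theorem fib_union_put_ne {κ : Finset (ℕ × J)} {i j : J} {B : Finset ℕ} (hij : i ≠ j) :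
    fib (κ ∪ put B j) i = fib κ i := by
  sorry

theorem off_union_put {κ : Finset (ℕ × J)} {j : J} {B : Finset ℕ}
    (hj : fib κ j = ∅) : off (κ ∪ put B j) j = κ := by
  sorry

theorem prod_union_put {P : Finset ℕ} {κ : Finset (ℕ × J)} {j : J} {B : Finset ℕ}
    (h : κ ∈ asg J P) (hB : B ⊆ P \ dom κ) (f : ℕ × J → ℝ) :
    ∏ x ∈ κ ∪ put B j, f x = (∏ x ∈ κ, f x) * ∏ p ∈ B, f (p, j) := by
  sorry

theorem Wa_union_put {P : Finset ℕ} {κ : Finset (ℕ × J)} {j : J} {B : Finset ℕ}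
    (h : κ ∈ asg J P) (hB : B ⊆ P \ dom κ) : Wa (κ ∪ put B j) = Wa κ * W B := by
  unfold Wa W
  rw [prod_union_put h hB]

theorem sum_asg_split (P : Finset ℕ) (j : J) (g : Finset (ℕ × J) → ℝ) :
    ∑ κ ∈ asg J P, g κ =
      ∑ κ ∈ (asg J P).filter (fun κ => fib κ j = ∅), ∑ B ∈ (P \ dom κ).powerset,
        g (κ ∪ put B j) := by
  sorry

end H59G
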