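import Mathlib

/-!
# H59G: the finite suppression theorem (MP_f9960f, large prime gaps, helper56's theorem)

Definitions.  An assignment of primes of `P` to forms (index type `J`) is a finite set `κ` of pairs
`(p, j)`, each prime used at most once (`asg P`).
-/

set_option autoImplicit false

namespace H59G

open Finset

variable {J : Type} [Fintype J] [DecidableEq J]

/-- Partial assignments of the elements of `P` to the forms. -/
def asg (J : Type) [Fintype J] [DecidableEq J] (P : Finset ℕ) : Finset (Finset (ℕ × J)) :=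
  ((P ×ˢ (univ : Finset J)).powerset).filter (fun κ => ∀ x ∈ κ, ∀ y ∈ κ, x.1 = y.1 → x = y)

/-- product of the elements of `A` -/
noncomputable def W (A : Finset ℕ) : ℝ := ∏ p ∈ A, (p : ℝ)

/-- the primes used by `κ` -/
def dom (κ : Finset (ℕ × J)) : Finset ℕ := κ.image Prod.fst

/-- the primes that `κ` gives to the form `j` -/
def fib (κ : Finset (ℕ × J)) (j : J) : Finset ℕ := (κ.filter (fun x => x.2 = j)).image Prod.fst

/-- the part of `κ` that does not concern `j` -/
def off (κ : Finset (ℕ × J)) (j : J) : Finset (ℕ × J) := κ.filter (fun x => x.2 ≠ j)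

/-- all primes of `A` given to `j` -/
def put (A : Finset ℕ) (j : J) : Finset (ℕ × J) := A.image (fun p => (p, j))

/-- the local factor `1 - p [p ∣ t - τ p j]` -/
noncomputable def u (τ : ℕ → J → ℤ) (x : ℕ × J) (t : ℤ) : ℝ :=
  1 - if (x.1 : ℤ) ∣ t - τ x.1 x.2 then (x.1 : ℝ) else 0

noncomputable def U (τ : ℕ → J → ℤ) (κ : Finset (ℕ × J)) (t : ℤ) : ℝ := ∏ x ∈ κ, u τ x t

/-- the function with coefficients `c` -/
noncomputable def F (τ : ℕ → J → ℤ) (P : Finset ℕ) (c : Finset (ℕ × J) → ℝ) (t : ℤ) : ℝ :=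
  ∑ κ ∈ asg J P, c κ * U τ κ t

/-- average over a full period -/
noncomputable def avg (n : ℕ) (f : ℤ → ℝ) : ℝ := (∑ t ∈ Finset.range n, f (t : ℤ)) / n

/-- weight of an assignment -/
noncomputable def Wa (κ : Finset (ℕ × J)) : ℝ := ∏ x ∈ κ, (x.1 : ℝ)

/-- `1` on the empty set, `-b` elsewhere -/
noncomputable def gneg (b : Finset ℕ → ℝ) (A : Finset ℕ) : ℝ := if A = ∅ then 1 else -b A

/-- `1` on the empty set, `b^2 W` elsewhere -/
noncomputable def gsq (b : Finset ℕ → ℝ) (A : Finset ℕ) : ℝ := if A = ∅ then 1 else b A ^ 2 * W A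

/-- `1` on the empty set, `b` elsewhere -/
noncomputable def gpos (b : Finset ℕ → ℝ) (A : Finset ℕ) : ℝ := if A = ∅ then 1 else b A

/-- coefficients of the suppression function -/
noncomputable def cL (b : Finset ℕ → ℝ) (Y : ℝ) (κ : Finset (ℕ × J)) : ℝ :=
  if Wa κ ≤ Y then ∏ j, gneg b (fib κ j) else 0

/-- sum of the `b B`, `B ≠ ∅`, disjoint from the primes of `κ`, `Wa κ * W B ≤ Y` -/
noncomputable def bsum (P : Finset ℕ) (b : Finset ℕ → ℝ) (Y : ℝ) (κ : Finset (ℕ × J)) : ℝ :=
  ∑ B ∈ (P \ dom κ).powerset, if B ≠ ∅ ∧ Wa κ * W B ≤ Y then b B else 0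

/-- the coefficients of `L` restricted to the `t` where the form `j` is not hit -/
noncomputable def cr (P : Finset ℕ) (b : Finset ℕ → ℝ) (Y : ℝ) (κ : Finset (ℕ × J)) : ℝ :=
  cL b Y κ * (1 - bsum P b Y κ)

/-- sum of the `a B` disjoint from the primes of `κ` -/
noncomputable def asum (P : Finset ℕ) (a : Finset ℕ → ℝ) (κ : Finset (ℕ × J)) : ℝ :=
  ∑ B ∈ (P \ dom κ).powerset, a B

/-- coefficients of the majorising function for the form `j` -/
noncomputable def cM (P : Finset ℕ) (b a : Finset ℕ → ℝ) (Y : ℝ) (j : J) (κ : Finset (ℕ × J)) : ℝ :=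
  cr P b Y (off κ j) * a (fib κ j) / asum P a (off κ j)

/-- the total mass -/
noncomputable def Z (J : Type) [Fintype J] [DecidableEq J] (P : Finset ℕ) (b : Finset ℕ → ℝ) : ℝ :=
  ∑ κ ∈ asg J P, ∏ j, gsq b (fib κ j)

end H59G
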