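import Pool.Agent.Lib.H59G.Avg

/-! Chunk LOC: the local factors `u`, the products `U`. -/

set_option autoImplicit false

namespace H59G

open Finset

variable {J : Type} [Fintype J] [DecidableEq J]

theorem u_periodic (τ : ℕ → J → ℤ) (x : ℕ × J) (t : ℤ) : u τ x (t + x.1) = u τ x t := by
  sorry

theorem abs_u_le (τ : ℕ → J → ℤ) (x : ℕ × J) (hx : 2 ≤ x.1) (t : ℤ) : |u τ x t| ≤ x.1 := by
  sorry

theorem u_eq_one (τ : ℕ → J → ℤ) (x : ℕ × J) (t : ℤ) (h : ¬ (x.1 : ℤ) ∣ t - τ x.1 x.2) :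
    u τ x t = 1 := by
  sorry

/-- mean zero: exactly one residue class mod `p` is hit -/
theorem avg_u (τ : ℕ → J → ℤ) {p : ℕ} (hp : p.Prime) (j : J) : avg p (u τ (p, j)) = 0 := by
  sorry

theorem avg_u_mul (τ : ℕ → J → ℤ) {p : ℕ} (hp : p.Prime)
    (hτ : ∀ i j : J, i ≠ j → ¬ (p : ℤ) ∣ τ p i - τ p j) (i j : J) :
    avg p (fun t => u τ (p, i) t * u τ (p, j) t) = (if i = j then (p : ℝ) else 0) - 1 := by
  sorry

theorem U_periodic (τ : ℕ → J → ℤ) (κ : Finset (ℕ × J)) (D : ℕ) (hD : ∀ x ∈ κ, x.1 ∣ D) (t : ℤ) :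
    U τ κ (t + D) = U τ κ t := by
  sorry

theorem abs_U_le (τ : ℕ → J → ℤ) (κ : Finset (ℕ × J)) (h : ∀ x ∈ κ, 2 ≤ x.1) (t : ℤ) :
    |U τ κ t| ≤ Wa κ := by
  sorry

end H59G
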