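import Pool.Agent.Lib.H59G.Comb
import Pool.Agent.Lib.H59G.Loc

/-! Chunk ERR: passage from a full period to an interval.

`F^2 = ∑_{κ,κ'} c κ c κ' U κ U κ'`; the product `U κ U κ'` has period `D = (∏ dom κ) * (∏ dom κ')`, which is
at most `Wa κ * Wa κ'`, and absolute value `≤ Wa κ * Wa κ'`; its average over `∏ P` equals the one over
`lcm` (use the period `D' = lcm (∏ dom κ) (∏ dom κ')`, a divisor of `∏ P`, `≤ Wa κ * Wa κ'`); `sum_Ico`. -/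

set_option autoImplicit false

namespace H59G

open Finset

variable {J : Type} [Fintype J] [DecidableEq J]

theorem pair_interval (τ : ℕ → J → ℤ) (P : Finset ℕ) (hP : ∀ q ∈ P, q.Prime)
    {κ κ' : Finset (ℕ × J)} (h : κ ∈ asg J P) (h' : κ' ∈ asg J P) (t0 : ℤ) (N : ℕ) :
    |∑ t ∈ Finset.Ico t0 (t0 + N), U τ κ t * U τ κ' t
        - N * avg (∏ q ∈ P, q) (fun t => U τ κ t * U τ κ' t)| ≤ 2 * (Wa κ * Wa κ') ^ 2 := by
  sorry

theorem F_interval (τ : ℕ → J → ℤ) (P : Finset ℕ) (hP : ∀ q ∈ P, q.Prime)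
    (c : Finset (ℕ × J) → ℝ) (t0 : ℤ) (N : ℕ) :
    |∑ t ∈ Finset.Ico t0 (t0 + N), F τ P c t ^ 2 - N * avg (∏ q ∈ P, q) (fun t => F τ P c t ^ 2)|
      ≤ 2 * (∑ κ ∈ asg J P, |c κ| * Wa κ ^ 2) ^ 2 := by
  sorry

end H59G
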