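import Pool.Agent.Lib.H59G.Comb
import Pool.Agent.Lib.H59G.Mass

/-! Chunk NORM: the norms.

`cL_sq`: if `Wa κ ≤ Y` then `cL^2 Wa = ∏_j gneg^2 W = ∏_j gsq` (`Wa_eq_prod_fib`).
`cr_norm`: `κ` off `j` with `Wa κ ≤ Y` (else `cr = 0`).  If `Wa κ ≤ Y/T`: the condition `Wa κ * W B ≤ Y` in
`bsum` is automatic where `b B ≠ 0`, so `1 - bsum` is the sum of the `b B`, `B ≠ ∅`, meeting `dom κ`, in `[0, ε]`.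
If `Wa κ > Y/T`: `bsum ∈ [0,1]`, and the sum of `cL^2 Wa` is at most the tail.
`cM_norm`: `sum_asg_split`, `cM (κ ∪ put B j) = cr κ * a B / asum κ`, `asum κ ≥ 1/2`.
`cL_lower`: `∏ (x.1 - R) ≥ Wa κ * (1 - ∑ R/p) ≥ (3/4) Wa κ` (Weierstrass product inequality) and
`∑_{Wa κ ≤ Y} ∏ gsq = Z - tail(Y) ≥ (3/4) Z`. -/

set_option autoImplicit false

namespace H59G

open Finset

variable {J : Type} [Fintype J] [DecidableEq J]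

theorem cL_sq (b : Finset ℕ → ℝ) (Y : ℝ) (κ : Finset (ℕ × J)) (h : Wa κ ≤ Y) :
    cL b Y κ ^ 2 * Wa κ = ∏ j, gsq b (fib κ j) := by
  sorry

theorem cr_norm (P : Finset ℕ) (hP : ∀ p ∈ P, 1 ≤ p) (b : Finset ℕ → ℝ) (hb0 : ∀ A, 0 ≤ b A)
    (hb1 : ∑ A ∈ P.powerset.erase ∅, b A = 1) (Y T ε τ0 : ℝ) (hT : 0 < T) (hY : 0 < Y)
    (hbT : ∀ A ⊆ P, b A ≠ 0 → W A ≤ T)
    (hε : ∀ A ⊆ P, W A ≤ Y →
      ∑ B ∈ (P.powerset.erase ∅).filter (fun B => ¬ Disjoint B A), b B ≤ ε)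
    (htail : ∑ κ ∈ (asg J P).filter (fun κ => Y / T < Wa κ), ∏ j, gsq b (fib κ j) ≤ τ0 * Z J P b)
    (j : J) :
    ∑ κ ∈ (asg J P).filter (fun κ => fib κ j = ∅), cr P b Y κ ^ 2 * Wa κ
      ≤ (ε ^ 2 + τ0) * Z J P b := by
  sorry

theorem asum_ge (P : Finset ℕ) (a : Finset ℕ → ℝ) (ha1 : ∑ A ∈ P.powerset, a A = 1) (Y : ℝ)
    (hA : ∀ A ⊆ P, W A ≤ Y → ∑ B ∈ P.powerset.filter (fun B => ¬ Disjoint B A), a B ≤ 1 / 2)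
    {κ : Finset (ℕ × J)} (h : κ ∈ asg J P) (hY : Wa κ ≤ Y) : 1 / 2 ≤ asum P a κ := by
  sorry

theorem cM_norm (P : Finset ℕ) (hP : ∀ p ∈ P, 1 ≤ p) (b a : Finset ℕ → ℝ) (ha0 : ∀ A, 0 ≤ a A)
    (Y : ℝ) (j : J) (has : ∀ κ ∈ asg J P, Wa κ ≤ Y → 1 / 2 ≤ asum P a κ) :
    ∑ κ ∈ asg J P, cM P b a Y j κ ^ 2 * Wa κ ≤
      4 * (∑ A ∈ P.powerset, a A ^ 2 * W A) *
        ∑ κ ∈ (asg J P).filter (fun κ => fib κ j = ∅), cr P b Y κ ^ 2 * Wa κ := by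
  sorry

theorem cL_lower (P : Finset ℕ) (hP : ∀ p ∈ P, 1 ≤ p) (hPR : ∀ p ∈ P, Fintype.card J ≤ p)
    (b : Finset ℕ → ℝ) (Y : ℝ)
    (hR : ∀ A ⊆ P, W A ≤ Y → ∑ p ∈ A, (Fintype.card J : ℝ) / p ≤ 1 / 4)
    (htail : ∑ κ ∈ (asg J P).filter (fun κ => Y < Wa κ), ∏ j, gsq b (fib κ j)
      ≤ 1 / 4 * Z J P b) :
    9 / 16 * Z J P b ≤
      ∑ κ ∈ asg J P, cL b Y κ ^ 2 * ∏ x ∈ κ, ((x.1 : ℝ) - Fintype.card J) := by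
  sorry

end H59G
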