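import Pool.Agent.Lib.H59G.Comb
import Pool.Agent.Lib.H59G.Loc

/-! Chunk UNHIT: if no prime of `P` hits the form `j` at `t` then `L(t) = L~_j(t)`.

Both sides by `sum_asg_split P j`: `U τ (κ ∪ put B j) t = U τ κ t * ∏_{p ∈ B} u τ (p,j) t = U τ κ t`
(`prod_union_put`, `u_eq_one`).  `fib (κ ∪ put B j) j = B`, `fib (κ ∪ put B j) i = fib κ i`, so for `κ` off `j`
`∑_B cL b Y (κ ∪ put B j) = cr P b Y κ` (if `Wa κ > Y` everything is `0` because `W B ≥ 1`), and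
`∑_B cM P b a Y j (κ ∪ put B j) = cr P b Y κ` (if `Wa κ > Y` both sides are `0`, otherwise `asum ≠ 0`). -/

set_option autoImplicit false

namespace H59G

open Finset

variable {J : Type} [Fintype J] [DecidableEq J]

theorem F_eq_of_unhit (τ : ℕ → J → ℤ) (P : Finset ℕ) (c : Finset (ℕ × J) → ℝ) (j : J) (t : ℤ)
    (ht : ∀ p ∈ P, ¬ (p : ℤ) ∣ t - τ p j) :
    F τ P c t = ∑ κ ∈ (asg J P).filter (fun κ => fib κ j = ∅),
      (∑ B ∈ (P \ dom κ).powerset, c (κ ∪ put B j)) * U τ κ t := by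
  sorry

theorem sum_cL (P : Finset ℕ) (hP : ∀ p ∈ P, 1 ≤ p) (b : Finset ℕ → ℝ) (Y : ℝ) (j : J)
    {κ : Finset (ℕ × J)} (h : κ ∈ asg J P) (hj : fib κ j = ∅) :
    ∑ B ∈ (P \ dom κ).powerset, cL b Y (κ ∪ put B j) = cr P b Y κ := by
  sorry

theorem sum_cM (P : Finset ℕ) (b a : Finset ℕ → ℝ) (Y : ℝ) (j : J)
    (ha : ∀ κ ∈ asg J P, Wa κ ≤ Y → asum P a κ ≠ 0)
    {κ : Finset (ℕ × J)} (h : κ ∈ asg J P) (hj : fib κ j = ∅) :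
    ∑ B ∈ (P \ dom κ).powerset, cM P b a Y j (κ ∪ put B j) = cr P b Y κ := by
  sorry

theorem L_eq_M (τ : ℕ → J → ℤ) (P : Finset ℕ) (hP : ∀ p ∈ P, 1 ≤ p) (b a : Finset ℕ → ℝ) (Y : ℝ)
    (ha : ∀ κ ∈ asg J P, Wa κ ≤ Y → asum P a κ ≠ 0) (j : J) (t : ℤ)
    (ht : ∀ p ∈ P, ¬ (p : ℤ) ∣ t - τ p j) :
    F τ P (cL b Y) t = F τ P (cM P b a Y j) t := by
  rw [F_eq_of_unhit τ P _ j t ht, F_eq_of_unhit τ P _ j t ht]
  refine Finset.sum_congr rfl fun κ hκ => ?_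
  rw [Finset.mem_filter] at hκ
  rw [sum_cL P hP b Y j hκ.1 hκ.2, sum_cM P b a Y j ha hκ.1 hκ.2]

end H59G
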