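import Pool.Agent.Lib.H59G.Gram
import Pool.Agent.Lib.H59G.Err
import Pool.Agent.Lib.H59G.Unhit
import Pool.Agent.Lib.H59G.Norm
import Pool.Agent.Lib.H59G.Abs

/-! The finite suppression theorem (assembly). -/

set_option autoImplicit false

namespace H59G

open Finset

variable {J : Type} [Fintype J] [DecidableEq J]

theorem suppression [Nonempty J] (P : Finset ℕ) (hP : ∀ p ∈ P, p.Prime)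
    (hPR : ∀ p ∈ P, Fintype.card J ≤ p)
    (τ : ℕ → J → ℤ) (hτ : ∀ p ∈ P, ∀ i j : J, i ≠ j → ¬ (p : ℤ) ∣ τ p i - τ p j)
    (b a : Finset ℕ → ℝ) (hb0 : ∀ A, 0 ≤ b A) (ha0 : ∀ A, 0 ≤ a A)
    (hb1 : ∑ A ∈ P.powerset.erase ∅, b A = 1) (ha1 : ∑ A ∈ P.powerset, a A = 1)
    (Y T D : ℝ) (hT : 1 ≤ T) (hTY : T ≤ Y) (hD : 1 ≤ D)
    (hbT : ∀ A ⊆ P, b A ≠ 0 → W A ≤ T) (haD : ∀ A ⊆ P, a A ≠ 0 → W A ≤ D)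
    (hR : ∀ A ⊆ P, W A ≤ Y → ∑ p ∈ A, (Fintype.card J : ℝ) / p ≤ 1 / 4)
    (ε : ℝ) (hε : ∀ A ⊆ P, W A ≤ Y →
      ∑ B ∈ (P.powerset.erase ∅).filter (fun B => ¬ Disjoint B A), b B ≤ ε)
    (hA : ∀ A ⊆ P, W A ≤ Y → ∑ B ∈ P.powerset.filter (fun B => ¬ Disjoint B A), a B ≤ 1 / 2)
    (α θ τ0 : ℝ) (hα : 0 ≤ α)
    (hθ : ∑ A ∈ P.powerset.erase ∅, b A ^ 2 * W A * (W A ^ α - 1) ≤ θ)
    (hτ0 : (1 + θ) ^ Fintype.card J * (Y / T) ^ (-α) ≤ τ0) (hτ1 : τ0 ≤ 1 / 4)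
    (hfin : 4 * Fintype.card J * (∑ A ∈ P.powerset, a A ^ 2 * W A) * (ε ^ 2 + τ0) ≤ 1 / 4)
    (N : ℕ) (hN : 64 * (Fintype.card J + 1) * 4 ^ Fintype.card J * (Y * D) ^ 4 ≤ N) (t0 : ℤ) :
    ∃ t : ℤ, t0 ≤ t ∧ t < t0 + N ∧ ∀ j, ∃ p ∈ P, (p : ℤ) ∣ t - τ p j := by
  sorry

end H59G
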