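import Pool.Agent.Lib.H59G.Comb
import Pool.Agent.Lib.H59G.Loc

/-! Chunk GRAM: the two Gram inequalities.

`F_insert`: `sum_asg_insert` and `U τ (insert (p,j) κ) = u τ (p,j) * U τ κ` (`(p,j) ∉ κ`, as `p ∉ P`).
`avg_sq_insert`: square, `avg_coprime` (`F τ P c` has period `∏ P`, `u` has period `p`), `avg_u`, `avg_u_mul`.
`gram_upper`, `gram_lower`: `Finset.induction_on` on `P`, generalising `c`.  Upper: drop
`- avg ((∑ F_j)^2)`.  Lower: `(∑_j F_j)^2 ≤ card J * ∑_j F_j^2` pointwise and `card J ≤ p`.  Then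
`sum_asg_insert` backwards, `Wa (insert (p,j) κ) = p * Wa κ`. -/

set_option autoImplicit false

namespace H59G

open Finset

variable {J : Type} [Fintype J] [DecidableEq J]

theorem F_insert (τ : ℕ → J → ℤ) {P : Finset ℕ} {p : ℕ} (hp : p ∉ P) (c : Finset (ℕ × J) → ℝ)
    (t : ℤ) :
    F τ (insert p P) c t =
      F τ P c t + ∑ j, F τ P (fun κ => c (insert (p, j) κ)) t * u τ (p, j) t := by
  sorry

theorem F_periodic (τ : ℕ → J → ℤ) (P : Finset ℕ) (c : Finset (ℕ × J) → ℝ) (D : ℕ)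
    (hD : ∀ p ∈ P, p ∣ D) (t : ℤ) : F τ P c (t + D) = F τ P c t := by
  sorry

theorem avg_sq_insert (τ : ℕ → J → ℤ) {P : Finset ℕ} (hP : ∀ q ∈ P, q.Prime) {p : ℕ}
    (hpp : p.Prime) (hp : p ∉ P) (hτ : ∀ i j : J, i ≠ j → ¬ (p : ℤ) ∣ τ p i - τ p j)
    (c : Finset (ℕ × J) → ℝ) :
    avg (∏ q ∈ insert p P, q) (fun t => F τ (insert p P) c t ^ 2) =
      avg (∏ q ∈ P, q) (fun t => F τ P c t ^ 2)
      + p * ∑ j, avg (∏ q ∈ P, q) (fun t => F τ P (fun κ => c (insert (p, j) κ)) t ^ 2)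
      - avg (∏ q ∈ P, q) (fun t => (∑ j, F τ P (fun κ => c (insert (p, j) κ)) t) ^ 2) := by
  sorry

theorem gram_upper (τ : ℕ → J → ℤ) (P : Finset ℕ) (hP : ∀ q ∈ P, q.Prime)
    (hτ : ∀ p ∈ P, ∀ i j : J, i ≠ j → ¬ (p : ℤ) ∣ τ p i - τ p j) (c : Finset (ℕ × J) → ℝ) :
    avg (∏ q ∈ P, q) (fun t => F τ P c t ^ 2) ≤ ∑ κ ∈ asg J P, c κ ^ 2 * Wa κ := by
  sorry

theorem gram_lower (τ : ℕ → J → ℤ) (P : Finset ℕ) (hP : ∀ q ∈ P, q.Prime)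
    (hR : ∀ q ∈ P, Fintype.card J ≤ q)
    (hτ : ∀ p ∈ P, ∀ i j : J, i ≠ j → ¬ (p : ℤ) ∣ τ p i - τ p j) (c : Finset (ℕ × J) → ℝ) :
    ∑ κ ∈ asg J P, c κ ^ 2 * ∏ x ∈ κ, ((x.1 : ℝ) - Fintype.card J) ≤
      avg (∏ q ∈ P, q) (fun t => F τ P c t ^ 2) := by
  sorry

end H59G
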